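import Mathlib

set_option autoImplicit false
set_option linter.all false

namespace Pool.Agent.Results.MP_c7e24e_co.NoMultipleOfAverage

open Finset

/-- `G` is biconnected: at least three vertices, connected, and no cut vertex. -/
def Biconnected {V : Type} [Fintype V] (G : SimpleGraph V) : Prop :=
  3 ≤ Fintype.card V ∧ G.Connected ∧ ∀ v : V, (G.induce {v}ᶜ).Connected

/-- The partition `P` of the vertex set is a connected `k`-partition balanced with slack `s`. -/
def IsBCP {V : Type} [Fintype V] [DecidableEq V] (G : SimpleGraph V) (k : ℕ) (s : ℝ)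
    (P : Finpartition (univ : Finset V)) : Prop :=
  P.parts.card = k ∧ ∀ U ∈ P.parts, (G.induce (U : Set V)).Connected ∧
    |(U.card : ℝ) - (Fintype.card V : ℝ) / k| ≤ s

/-- A recombination move: two districts `A`, `B` of `P` are merged and re-split into the districts
`C`, `D` of `Q`; the other districts stay fixed. -/
def Recombine {V : Type} [Fintype V] [DecidableEq V] (P Q : Finpartition (univ : Finset V)) :
    Prop :=
  P ≠ Q ∧ ∃ A ∈ P.parts, ∃ B ∈ P.parts, ∃ C ∈ Q.parts, ∃ D ∈ Q.parts, A ≠ B ∧ C ≠ D ∧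
    A ∪ B = C ∪ D ∧ P.parts \ {A, B} = Q.parts \ {C, D}

/-- `P` and `Q` are joined by a finite sequence of recombination moves through balanced
connected partitions. -/
def Joined {V : Type} [Fintype V] [DecidableEq V] (G : SimpleGraph V) (k : ℕ) (s : ℝ)
    (P Q : Finpartition (univ : Finset V)) : Prop :=
  Relation.ReflTransGen (fun P Q => IsBCP G k s P ∧ IsBCP G k s Q ∧ Recombine P Q) P Q

/-! ### The graphs -/

/-- the vertices of degree two -/
abbrev Leaf (D : ℕ) := (Fin 2 × Fin (D + 1)) ⊕ (Fin (5 * D) ⊕ (Fin 3 ⊕ (Fin 3 × Fin D)))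

abbrev Vx (D : ℕ) := Fin 5 ⊕ Leaf D

def E (D : ℕ) : Leaf D → Finset (Fin 5)
  | .inl _ => {0, 1}
  | .inr (.inl _) => {0, 1}
  | .inr (.inr (.inl t)) => ![{2, 3}, {3, 4}, {4, 2}] t
  | .inr (.inr (.inr p)) => ![{2, 0}, {3, 1}, {4, 0}] p.1

def Gr (D : ℕ) : SimpleGraph (Vx D) where
  Adj u v := match u, v with
    | .inl i, .inr l => i ∈ E D l
    | .inr l, .inl i => i ∈ E D l
    | _, _ => False
  symm := ⟨by rintro (u | u) (v | v) h <;> exact h⟩
  loopless := ⟨by rintro (u | u) h <;> exact h⟩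

variable {D : ℕ}

lemma adj_hl {i : Fin 5} {l : Leaf D} (h : i ∈ E D l) : (Gr D).Adj (.inl i) (.inr l) := h

lemma adj_lh {i : Fin 5} {l : Leaf D} (h : i ∈ E D l) : (Gr D).Adj (.inr l) (.inl i) := h

lemma adj_leaf {l : Leaf D} {v : Vx D} (h : (Gr D).Adj (.inr l) v) : ∃ i, v = .inl i ∧ i ∈ E D l := by
  rcases v with i | m
  · exact ⟨i, rfl, h⟩
  · exact absurd h id

/-- connectedness of stars -/
lemma star_conn {V : Type} (G : SimpleGraph V) (U : Set V) (c : V) (hc : c ∈ U)
    (h : ∀ u ∈ U, u = c ∨ G.Adj c u) : (G.induce U).Connected := by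
  rw [SimpleGraph.connected_iff_exists_forall_reachable]
  refine ⟨⟨c, hc⟩, ?_⟩
  rintro ⟨u, hu⟩
  rcases h u hu with rfl | h1
  · exact SimpleGraph.Reachable.refl _
  · exact SimpleGraph.Adj.reachable h1

/-- a vertex in a connected part with another vertex has a neighbour in the part -/
lemma exists_nbr {V : Type} (G : SimpleGraph V) (U : Set V) (hU : (G.induce U).Connected)
    (u w : V) (hu : u ∈ U) (hw : w ∈ U) (huw : u ≠ w) : ∃ x ∈ U, G.Adj u x := by
  obtain ⟨p⟩ := hU.preconnected ⟨u, hu⟩ ⟨w, hw⟩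
  cases p with
  | nil => exact absurd rfl huw
  | cons h p => exact ⟨_, Subtype.prop _, h⟩

/-! ### Structure of the balanced partitions -/

section struct

variable (P : Finpartition (univ : Finset (Vx D)))
  (hk : P.parts.card = 5 * (D + 1))
  (hc : ∀ U ∈ P.parts, ((Gr D).induce (U : Set (Vx D))).Connected ∧ U.card ≤ D + 2)

/-- the part of a hub -/
def pt (i : Fin 5) : Finset (Vx D) := P.part (.inl i)

lemma pt_mem (i : Fin 5) : pt P i ∈ P.parts := P.part_mem.2 (mem_univ _)

lemma hub_mem (i : Fin 5) : (.inl i : Vx D) ∈ pt P i := P.mem_part (mem_univ _)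

lemma eq_pt {U : Finset (Vx D)} (hU : U ∈ P.parts) {i : Fin 5} (h : (.inl i : Vx D) ∈ U) :
    U = pt P i := (P.part_eq_of_mem hU h).symm

include hk hc

lemma count : (univ.image (pt P)).card = 5 ∧ ∀ i, (pt P i).card = D + 2 := by
  classical
  set H := univ.image (pt P) with hH
  have hHs : H ⊆ P.parts := by
    intro U hU
    obtain ⟨i, -, rfl⟩ := mem_image.1 hU
    exact pt_mem P i
  have h1 : ∑ U ∈ P.parts, U.card = Fintype.card (Vx D) := P.sum_card_parts
  have h2 : Fintype.card (Vx D) = 10 * (D + 1) := by simp; ring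
  have hsing : ∀ U ∈ P.parts \ H, U.card ≤ 1 := by
    intro U hU
    obtain ⟨hU1, hU2⟩ := mem_sdiff.1 hU
    have hnohub : ∀ i, (.inl i : Vx D) ∉ U := fun i hi => hU2 (by
      rw [eq_pt P hU1 hi]; exact mem_image_of_mem _ (mem_univ _))
    rw [card_le_one]
    intro a ha b hb
    by_contra hab
    obtain ⟨x, hx, hax⟩ := exists_nbr _ _ (hc U hU1).1 a b ha hb hab
    rcases a with i | l
    · exact hnohub i ha
    · obtain ⟨i, rfl, -⟩ := adj_leaf hax
      exact hnohub i hx
  have h3 : ∑ U ∈ P.parts \ H, U.card + ∑ U ∈ H, U.card = 10 * (D + 1) := by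
    rw [sum_sdiff hHs, h1, h2]
  have h4 : ∑ U ∈ P.parts \ H, U.card ≤ (P.parts \ H).card := by
    simpa using sum_le_card_nsmul _ _ 1 hsing
  have h5 : (P.parts \ H).card = 5 * (D + 1) - H.card := by
    rw [card_sdiff_of_subset hHs, hk]
  have h6 : H.card ≤ 5 := by
    simpa using (card_image_le (s := (univ : Finset (Fin 5))) (f := pt P))
  have h7 : ∑ U ∈ H, U.card ≤ H.card * (D + 2) := by
    simpa using sum_le_card_nsmul H (fun U => U.card) (D + 2) (fun U hU => (hc U (hHs hU)).2)
  have h8 : H.card = 5 := by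
    by_contra hne
    have : H.card ≤ 4 := by omega
    have e1 : H.card * (D + 2) = H.card * (D + 1) + H.card := by ring
    have e2 : H.card * (D + 1) ≤ 4 * (D + 1) := Nat.mul_le_mul_right _ this
    omega
  refine ⟨h8, fun i => ?_⟩
  have hle : ∀ U ∈ H, U.card ≤ D + 2 := fun U hU => (hc U (hHs hU)).2
  by_contra hne
  have hlt : (pt P i).card < D + 2 := lt_of_le_of_ne (hle _ (mem_image_of_mem _ (mem_univ i))) hne
  have : ∑ U ∈ H, U.card < ∑ U ∈ H, (D + 2) :=
    sum_lt_sum hle ⟨pt P i, mem_image_of_mem _ (mem_univ i), hlt⟩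
  rw [sum_const, h8] at this
  simp only [smul_eq_mul] at this
  rw [h8] at h5
  omega

lemma pt_inj {i j : Fin 5} (h : pt P i = pt P j) : i = j := by
  classical
  have h1 := (count P hk hc).1
  have : Set.InjOn (pt P) (univ : Finset (Fin 5)) := by
    rw [← card_image_iff, h1]; simp
  exact this (by simp) (by simp) h

lemma leaf_in {i : Fin 5} {l : Leaf D} (h : (.inr l : Vx D) ∈ pt P i) : i ∈ E D l := by
  obtain ⟨x, hx, hax⟩ := exists_nbr _ _ (hc _ (pt_mem P i)).1 (.inr l) (.inl i) h (hub_mem P i)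
    (by simp)
  obtain ⟨j, rfl, hj⟩ := adj_leaf hax
  have := eq_pt P (pt_mem P i) hx
  rw [pt_inj P hk hc this]
  exact hj

open Classical in
/-- leaves in the part of a hub -/
noncomputable def Lf (i : Fin 5) : Finset (Leaf D) := univ.filter (fun l => (.inr l : Vx D) ∈ pt P i)

omit hk hc in
lemma mem_Lf {i : Fin 5} {l : Leaf D} : l ∈ Lf P i ↔ (.inr l : Vx D) ∈ pt P i := by
  simp [Lf]

include hk hc

lemma Lf_card (i : Fin 5) : (Lf P i).card = D + 1 := by
  classical
  have h1 : pt P i = insert (.inl i) ((Lf P i).image Sum.inr) := by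
    ext v
    rcases v with j | l
    · simp only [mem_insert, mem_image, reduceCtorEq, and_false, exists_false, or_false,
        Sum.inl.injEq]
      constructor
      · intro h
        exact (pt_inj P hk hc (eq_pt P (pt_mem P i) h)).symm
      · rintro rfl
        exact hub_mem P j
    · simp only [mem_insert, reduceCtorEq, mem_image, Sum.inr.injEq, exists_eq_right, false_or]
      exact (mem_Lf P).symm
  have h2 := (count P hk hc).2 i
  rw [h1, card_insert_of_notMem (by simp), card_image_of_injective _ Sum.inr_injective] at h2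
  omega

omit hk hc in
lemma Lf_disj {i j : Fin 5} (h : pt P i ≠ pt P j) : Disjoint (Lf P i) (Lf P j) := by
  rw [disjoint_left]
  intro l hi hj
  rw [mem_Lf] at hi hj
  exact h (P.eq_of_mem_parts (pt_mem P i) (pt_mem P j) hi hj)

/-- the vertices next to the hubs `2`, `3`, `4` -/
abbrev tri (t : Fin 3) : Leaf D := .inr (.inr (.inl t))

abbrev cro (a : Fin 3) (j : Fin D) : Leaf D := .inr (.inr (.inr (a, j)))

omit hk hc in
lemma E_tri (t : Fin 3) : E D (tri t) = ![{2, 3}, {3, 4}, {4, 2}] t := rfl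

omit hk hc in
lemma E_cro (a : Fin 3) (j : Fin D) : E D (cro a j) = ![{2, 0}, {3, 1}, {4, 0}] a := rfl

lemma union_eq : Lf P 2 ∪ (Lf P 3 ∪ Lf P 4) =
    (univ : Finset (Fin 3 ⊕ (Fin 3 × Fin D))).image (fun x => (.inr (.inr x) : Leaf D)) := by
  classical
  have n23 : pt P 2 ≠ pt P 3 := fun h => absurd (pt_inj P hk hc h) (by decide)
  have n24 : pt P 2 ≠ pt P 4 := fun h => absurd (pt_inj P hk hc h) (by decide)
  have n34 : pt P 3 ≠ pt P 4 := fun h => absurd (pt_inj P hk hc h) (by decide)
  apply eq_of_subset_of_card_le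
  · intro l hl
    have : ∃ i : Fin 5, (i = 2 ∨ i = 3 ∨ i = 4) ∧ i ∈ E D l := by
      simp only [mem_union, mem_Lf] at hl
      rcases hl with h | h | h
      · exact ⟨2, by simp, leaf_in P hk hc h⟩
      · exact ⟨3, by simp, leaf_in P hk hc h⟩
      · exact ⟨4, by simp, leaf_in P hk hc h⟩
    obtain ⟨i, hi, hE⟩ := this
    rcases l with l | l | l
    · exfalso
      have : i ∈ ({0, 1} : Finset (Fin 5)) := hE
      revert this hi
      clear hE
      revert i
      decide
    · exfalso
      have : i ∈ ({0, 1} : Finset (Fin 5)) := hE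
      revert this hi
      clear hE
      revert i
      decide
    · exact mem_image_of_mem _ (mem_univ _)
  · rw [card_image_of_injective _ (fun a b h => by simpa using h), card_univ,
      card_union_of_disjoint (by
        rw [disjoint_union_right]
        exact ⟨Lf_disj P n23, Lf_disj P n24⟩),
      card_union_of_disjoint (Lf_disj P n34), Lf_card P hk hc, Lf_card P hk hc, Lf_card P hk hc]
    simp
    omega

lemma cro_mem (a : Fin 3) (j : Fin D) :
    (.inr (cro a j) : Vx D) ∈ pt P (![2, 3, 4] a) := by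
  have h : cro a j ∈ Lf P 2 ∪ (Lf P 3 ∪ Lf P 4) := by
    rw [union_eq P hk hc]
    exact mem_image_of_mem _ (mem_univ _)
  simp only [mem_union, mem_Lf] at h
  rcases h with h | h | h
  · have := leaf_in P hk hc h
    rw [E_cro] at this
    have ha : a = 0 := by clear h; revert this; revert a; decide
    subst ha; exact h
  · have := leaf_in P hk hc h
    rw [E_cro] at this
    have ha : a = 1 := by clear h; revert this; revert a; decide
    subst ha; exact h
  · have := leaf_in P hk hc h
    rw [E_cro] at this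
    have ha : a = 2 := by clear h; revert this; revert a; decide
    subst ha; exact h

lemma tri_mem (t : Fin 3) : (.inr (tri t) : Vx D) ∈ pt P (![2, 3, 4] t) ∨
    (.inr (tri t) : Vx D) ∈ pt P (![3, 4, 2] t) := by
  have h : tri t ∈ Lf P 2 ∪ (Lf P 3 ∪ Lf P 4) := by
    rw [union_eq P hk hc]
    exact mem_image_of_mem _ (mem_univ _)
  simp only [mem_union, mem_Lf] at h
  have key : ∀ i : Fin 5, (i = 2 ∨ i = 3 ∨ i = 4) → i ∈ E D (tri t) →
      i = ![2, 3, 4] t ∨ i = ![3, 4, 2] t := by
    rw [E_tri]; clear h; revert t; decide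
  rcases h with h | h | h
  · rcases key 2 (by simp) (leaf_in P hk hc h) with e | e <;> rw [e] at h
    · exact Or.inl h
    · exact Or.inr h
  · rcases key 3 (by simp) (leaf_in P hk hc h) with e | e <;> rw [e] at h
    · exact Or.inl h
    · exact Or.inr h
  · rcases key 4 (by simp) (leaf_in P hk hc h) with e | e <;> rw [e] at h
    · exact Or.inl h
    · exact Or.inr h

lemma not_two (a t t' : Fin 3) (htt : t ≠ t')
    (h : (.inr (tri t) : Vx D) ∈ pt P (![2, 3, 4] a))
    (h' : (.inr (tri t') : Vx D) ∈ pt P (![2, 3, 4] a)) : False := by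
  classical
  have hsub : insert (tri t) (insert (tri t') ((univ : Finset (Fin D)).image (cro a))) ⊆
      Lf P (![2, 3, 4] a) := by
    intro l hl
    simp only [mem_insert, mem_image, mem_univ, true_and] at hl
    rw [mem_Lf]
    rcases hl with rfl | rfl | ⟨j, rfl⟩
    · exact h
    · exact h'
    · exact cro_mem P hk hc a j
  have h1 := card_le_card hsub
  rw [Lf_card P hk hc, card_insert_of_notMem (by simp [htt]), card_insert_of_notMem (by simp),
    card_image_of_injective _ (fun a b h => by simpa using h), card_univ, Fintype.card_fin] at h1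
  omega

lemma typ :
    ((.inr (tri 0) : Vx D) ∈ pt P 2 ∧ (.inr (tri 1) : Vx D) ∈ pt P 3 ∧
      (.inr (tri 2) : Vx D) ∈ pt P 4) ∨
    ((.inr (tri 0) : Vx D) ∈ pt P 3 ∧ (.inr (tri 1) : Vx D) ∈ pt P 4 ∧
      (.inr (tri 2) : Vx D) ∈ pt P 2) := by
  rcases tri_mem P hk hc 0 with h0 | h0
  · left
    rcases tri_mem P hk hc 2 with h2 | h2
    · rcases tri_mem P hk hc 1 with h1 | h1
      · exact ⟨h0, h1, h2⟩
      · exact (not_two P hk hc 2 1 2 (by decide) h1 h2).elim
    · exact (not_two P hk hc 0 0 2 (by decide) h0 h2).elim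
  · right
    rcases tri_mem P hk hc 1 with h1 | h1
    · exact (not_two P hk hc 1 0 1 (by decide) h0 h1).elim
    · rcases tri_mem P hk hc 2 with h2 | h2
      · exact (not_two P hk hc 2 1 2 (by decide) h1 h2).elim
      · exact ⟨h0, h1, h2⟩

end struct

/-- A recombination move preserves the type. -/
lemma typ_pres (P Q : Finpartition (univ : Finset (Vx D)))
    (hk : P.parts.card = 5 * (D + 1))
    (hc : ∀ U ∈ P.parts, ((Gr D).induce (U : Set (Vx D))).Connected ∧ U.card ≤ D + 2)
    (hk' : Q.parts.card = 5 * (D + 1))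
    (hc' : ∀ U ∈ Q.parts, ((Gr D).induce (U : Set (Vx D))).Connected ∧ U.card ≤ D + 2)
    (hr : Recombine P Q) (h0 : (.inr (tri 0) : Vx D) ∈ pt P 2) :
    (.inr (tri 0) : Vx D) ∈ pt Q 2 := by
  classical
  obtain ⟨-, A, hA, B, hB, C, hC, F, hF, hAB, hCF, hU, hdiff⟩ := hr
  have hP : (.inr (tri 0) : Vx D) ∈ pt P 2 ∧ (.inr (tri 1) : Vx D) ∈ pt P 3 ∧
      (.inr (tri 2) : Vx D) ∈ pt P 4 := by
    rcases typ P hk hc with h | h
    · exact h
    · exact absurd (pt_inj P hk hc (P.eq_of_mem_parts (pt_mem P 2) (pt_mem P 3) h0 h.1)) (by decide)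
  rcases typ Q hk' hc' with hQ | hQ
  · exact hQ.1
  exfalso
  have key : ∀ i : Fin 5, pt P i ≠ pt Q i → pt P i = A ∨ pt P i = B := by
    intro i hi
    by_contra hcon
    push Not at hcon
    have h1 : pt P i ∈ P.parts \ {A, B} := by
      simp only [mem_sdiff, mem_insert, mem_singleton, not_or]
      exact ⟨pt_mem P i, hcon⟩
    rw [hdiff] at h1
    exact hi (eq_pt Q (mem_sdiff.1 h1).1 (hub_mem P i))
  have d2 : pt P 2 ≠ pt Q 2 := by
    intro h
    have h1 := hP.1
    rw [h] at h1
    exact absurd (pt_inj Q hk' hc' (Q.eq_of_mem_parts (pt_mem Q 2) (pt_mem Q 3) h1 hQ.1))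
      (by decide)
  have d3 : pt P 3 ≠ pt Q 3 := by
    intro h
    have h1 := hP.2.1
    rw [h] at h1
    exact absurd (pt_inj Q hk' hc' (Q.eq_of_mem_parts (pt_mem Q 3) (pt_mem Q 4) h1 hQ.2.1))
      (by decide)
  have d4 : pt P 4 ≠ pt Q 4 := by
    intro h
    have h1 := hP.2.2
    rw [h] at h1
    exact absurd (pt_inj Q hk' hc' (Q.eq_of_mem_parts (pt_mem Q 4) (pt_mem Q 2) h1 hQ.2.2))
      (by decide)
  have n23 : pt P 2 ≠ pt P 3 := fun h => absurd (pt_inj P hk hc h) (by decide)
  have n24 : pt P 2 ≠ pt P 4 := fun h => absurd (pt_inj P hk hc h) (by decide)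
  have n34 : pt P 3 ≠ pt P 4 := fun h => absurd (pt_inj P hk hc h) (by decide)
  rcases key 2 d2 with a2 | a2 <;> rcases key 3 d3 with a3 | a3 <;> rcases key 4 d4 with a4 | a4
  · exact n23 (a2.trans a3.symm)
  · exact n23 (a2.trans a3.symm)
  · exact n24 (a2.trans a4.symm)
  · exact n34 (a3.trans a4.symm)
  · exact n34 (a3.trans a4.symm)
  · exact n24 (a2.trans a4.symm)
  · exact n23 (a2.trans a3.symm)
  · exact n23 (a2.trans a3.symm)

/-! ### Partitions into fibres -/

section fibres

variable {V I : Type} [Fintype V] [DecidableEq V] [Fintype I] [DecidableEq I]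

def fib (f : V → I) (i : I) : Finset V := univ.filter (fun v => f v = i)

lemma mem_fib {f : V → I} {i : I} {v : V} : v ∈ fib f i ↔ f v = i := by simp [fib]

def byFib (f : V → I) (hf : Function.Surjective f) : Finpartition (univ : Finset V) where
  parts := univ.image (fib f)
  supIndep := by
    rw [supIndep_iff_pairwiseDisjoint]
    intro A hA B hB hAB
    rw [mem_coe, mem_image] at hA hB
    obtain ⟨i, -, rfl⟩ := hA
    obtain ⟨j, -, rfl⟩ := hB
    change Disjoint (fib f i) (fib f j)
    rw [disjoint_left]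
    intro v hv hv'
    rw [mem_fib] at hv hv'
    exact hAB (by rw [← hv, ← hv'])
  sup_parts := by
    ext v
    simp only [mem_univ, iff_true, mem_sup, mem_image, true_and, id_eq]
    exact ⟨fib f (f v), ⟨f v, rfl⟩, mem_fib.2 rfl⟩
  bot_notMem := by
    intro h
    obtain ⟨i, -, hi⟩ := mem_image.1 h
    obtain ⟨v, hv⟩ := hf i
    have : v ∈ fib f i := mem_fib.2 hv
    rw [hi] at this
    simp at this

lemma byFib_card (f : V → I) (hf : Function.Surjective f) :
    (byFib f hf).parts.card = Fintype.card I := by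
  change (univ.image (fib f)).card = _
  rw [card_image_of_injective, card_univ]
  intro i j hij
  obtain ⟨v, rfl⟩ := hf i
  have : v ∈ fib f (f v) := mem_fib.2 rfl
  rw [hij, mem_fib] at this
  exact this

end fibres

/-- the assignment of the vertices to the districts -/
def asg (D : ℕ) (σ : Equiv.Perm (Fin 3)) : Vx D → Fin 5 ⊕ Fin (5 * D)
  | .inl i => .inl i
  | .inr (.inl p) => .inl (![0, 1] p.1)
  | .inr (.inr (.inl x)) => .inr x
  | .inr (.inr (.inr (.inl t))) => .inl (![2, 3, 4] (σ t))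
  | .inr (.inr (.inr (.inr p))) => .inl (![2, 3, 4] p.1)

lemma asg_surj (σ : Equiv.Perm (Fin 3)) : Function.Surjective (asg D σ) := by
  rintro (i | x)
  · exact ⟨.inl i, rfl⟩
  · exact ⟨.inr (.inr (.inl x)), rfl⟩

def part (D : ℕ) (σ : Equiv.Perm (Fin 3)) : Finpartition (univ : Finset (Vx D)) :=
  byFib (asg D σ) (asg_surj σ)

lemma asg_E (σ : Equiv.Perm (Fin 3)) (hσ : ∀ t, ![2, 3, 4] (σ t) ∈ E D (tri t)) (i : Fin 5)
    (l : Leaf D) (h : asg D σ (.inr l) = .inl i) : i ∈ E D l := by
  rcases l with ⟨b, j⟩ | x | t | ⟨a, j⟩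
  · have h1 : ![0, 1] b = i := by simpa [asg] using h
    rw [← h1]
    change ![0, 1] b ∈ ({0, 1} : Finset (Fin 5))
    clear h h1
    revert b; decide
  · simp [asg] at h
  · have h1 : ![2, 3, 4] (σ t) = i := by simpa [asg] using h
    rw [← h1]
    exact hσ t
  · have h1 : ![2, 3, 4] a = i := by simpa [asg] using h
    rw [← h1]
    change ![2, 3, 4] a ∈ (![{2, 0}, {3, 1}, {4, 0}] : Fin 3 → Finset (Fin 5)) a
    clear h h1
    revert a; decide

lemma fib_card_le (σ : Equiv.Perm (Fin 3)) (i : Fin 5) :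
    (fib (asg D σ) (.inl i)).card ≤ D + 2 := by
  have h01 : ∀ b : Fin 2, (fib (asg D σ) (.inl (![0, 1] b))).card ≤ D + 2 := by
    intro b
    have hsub : fib (asg D σ) (.inl (![0, 1] b)) ⊆
        insert (.inl (![0, 1] b)) (univ.image (fun j : Fin (D + 1) => (.inr (.inl (b, j)) : Vx D))) := by
      intro v hv
      rw [mem_fib] at hv
      rcases v with i | ⟨b', j⟩ | x | t | ⟨a, j⟩
      · rw [Sum.inl.inj hv]; simp
      · have h1 : ![0, 1] b' = (![0, 1] : Fin 2 → Fin 5) b := Sum.inl.inj hv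
        have h2 : b' = b := by clear hv; revert h1; revert b b'; decide
        subst h2
        simp
      · exact absurd hv (by simp [asg])
      · have h1 : ![2, 3, 4] (σ t) = (![0, 1] : Fin 2 → Fin 5) b := Sum.inl.inj hv
        exfalso; clear hv; revert h1; generalize σ t = s; revert s b; decide
      · have h1 : ![2, 3, 4] a = (![0, 1] : Fin 2 → Fin 5) b := Sum.inl.inj hv
        exfalso; clear hv; revert h1; revert a b; decide
    refine (card_le_card hsub).trans ((card_insert_le _ _).trans ?_)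
    have := card_image_le (s := (univ : Finset (Fin (D + 1))))
      (f := fun j : Fin (D + 1) => (.inr (.inl (b, j)) : Vx D))
    rw [card_univ, Fintype.card_fin] at this
    omega
  have h234 : ∀ a : Fin 3, (fib (asg D σ) (.inl (![2, 3, 4] a))).card ≤ D + 2 := by
    intro a
    have hsub : fib (asg D σ) (.inl (![2, 3, 4] a)) ⊆
        insert (.inl (![2, 3, 4] a)) (insert (.inr (tri (σ.symm a)))
          (univ.image (fun j : Fin D => (.inr (cro a j) : Vx D)))) := by
      intro v hv
      rw [mem_fib] at hv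
      rcases v with i | ⟨b', j⟩ | x | t | ⟨a', j⟩
      · rw [Sum.inl.inj hv]; simp
      · have h1 : ![0, 1] b' = (![2, 3, 4] : Fin 3 → Fin 5) a := Sum.inl.inj hv
        exfalso; clear hv; revert h1; revert b' a; decide
      · exact absurd hv (by simp [asg])
      · have h1 : ![2, 3, 4] (σ t) = (![2, 3, 4] : Fin 3 → Fin 5) a := Sum.inl.inj hv
        have h2 : σ t = a := by
          clear hv; revert h1; generalize σ t = s; revert s a; decide
        rw [← h2]
        simp
      · have h1 : ![2, 3, 4] a' = (![2, 3, 4] : Fin 3 → Fin 5) a := Sum.inl.inj hv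
        have h2 : a' = a := by clear hv; revert h1; revert a a'; decide
        subst h2
        simp
    refine (card_le_card hsub).trans ((card_insert_le _ _).trans ?_)
    have h3 := card_insert_le (.inr (tri (σ.symm a)))
      (univ.image (fun j : Fin D => (.inr (cro a j) : Vx D)))
    have := card_image_le (s := (univ : Finset (Fin D)))
      (f := fun j : Fin D => (.inr (cro a j) : Vx D))
    rw [card_univ, Fintype.card_fin] at this
    omega
  fin_cases i
  · exact h01 0
  · exact h01 1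
  · exact h234 0
  · exact h234 1
  · exact h234 2

lemma card_Vx : Fintype.card (Vx D) = 10 * (D + 1) := by simp; ring

lemma ratio : (Fintype.card (Vx D) : ℝ) / ((5 * (D + 1) : ℕ) : ℝ) = 2 := by
  rw [card_Vx]
  have : ((D : ℝ) + 1) ≠ 0 := by positivity
  push_cast
  field_simp
  norm_num

lemma part_isBCP (hD : 1 ≤ D) (σ : Equiv.Perm (Fin 3))
    (hσ : ∀ t, ![2, 3, 4] (σ t) ∈ E D (tri t)) :
    IsBCP (Gr D) (5 * (D + 1)) D (part D σ) := by
  refine ⟨?_, ?_⟩
  · rw [part, byFib_card]
    simp; ring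
  · intro U hU
    have hne : U.Nonempty := (part D σ).nonempty_of_mem_parts hU
    change U ∈ univ.image (fib (asg D σ)) at hU
    obtain ⟨i, -, rfl⟩ := mem_image.1 hU
    have hcard : (fib (asg D σ) i).card ≤ D + 2 := by
      rcases i with i | x
      · exact fib_card_le σ i
      · have hsub : fib (asg D σ) (.inr x) ⊆ {(.inr (.inr (.inl x)) : Vx D)} := by
          intro v hv
          rw [mem_fib] at hv
          rcases v with i | ⟨b', j⟩ | y | t | ⟨a, j⟩ <;> simp [asg] at hv ⊢
          exact hv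
        have := card_le_card hsub
        rw [card_singleton] at this
        omega
    refine ⟨?_, ?_⟩
    · rcases i with i | x
      · apply star_conn _ _ (.inl i : Vx D)
        · exact mem_fib.2 rfl
        · intro u hu
          have hu' := mem_fib.1 hu
          rcases u with j | l
          · left
            exact congrArg _ (Sum.inl.inj hu')
          · right
            exact adj_hl (asg_E σ hσ i l hu')
      · apply star_conn _ _ (.inr (.inr (.inl x)) : Vx D)
        · exact mem_fib.2 rfl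
        · intro v hv
          left
          have hv' := mem_fib.1 hv
          rcases v with i | ⟨b', j⟩ | y | t | ⟨a, j⟩ <;> simp [asg] at hv' ⊢
          exact hv'
    · rw [ratio, abs_le]
      have h1 : 1 ≤ (fib (asg D σ) i).card := card_pos.2 hne
      have h1' : (1 : ℝ) ≤ ((fib (asg D σ) i).card : ℝ) := by exact_mod_cast h1
      have h2' : ((fib (asg D σ) i).card : ℝ) ≤ D + 2 := by exact_mod_cast hcard
      have h3 : (1 : ℝ) ≤ D := by exact_mod_cast hD
      constructor <;> linarith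

lemma of_isBCP {P : Finpartition (univ : Finset (Vx D))} (h : IsBCP (Gr D) (5 * (D + 1)) D P) :
    P.parts.card = 5 * (D + 1) ∧
    ∀ U ∈ P.parts, ((Gr D).induce (U : Set (Vx D))).Connected ∧ U.card ≤ D + 2 := by
  refine ⟨h.1, fun U hU => ⟨(h.2 U hU).1, ?_⟩⟩
  have := (h.2 U hU).2
  rw [ratio, abs_le] at this
  have h2 : ((U.card : ℕ) : ℝ) ≤ ((D + 2 : ℕ) : ℝ) := by push_cast; linarith
  exact_mod_cast h2

/-! ### Biconnectedness -/

/-- a cycle through all hubs -/
def zf (D : ℕ) (hD : 0 < D) : Fin 10 → Vx D :=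
  ![.inl 0, .inr (.inl (0, 0)), .inl 1, .inr (cro 1 ⟨0, hD⟩), .inl 3, .inr (tri 1), .inl 4,
    .inr (tri 2), .inl 2, .inr (cro 0 ⟨0, hD⟩)]

lemma zf_inj (hD : 0 < D) : Function.Injective (zf D hD) := by
  intro i j h
  fin_cases i <;> fin_cases j <;> first | rfl | (exfalso; simp [zf] at h)

lemma zf_adj (hD : 0 < D) (i : Fin 10) : (Gr D).Adj (zf D hD i) (zf D hD (i + 1)) := by
  fin_cases i
  · exact adj_hl (l := .inl (0, 0)) (i := 0) (by change (0 : Fin 5) ∈ ({0, 1} : Finset (Fin 5)); decide)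
  · exact adj_lh (l := .inl (0, 0)) (i := 1) (by change (1 : Fin 5) ∈ ({0, 1} : Finset (Fin 5)); decide)
  · exact adj_hl (l := cro 1 ⟨0, hD⟩) (i := 1) (by change (1 : Fin 5) ∈ ({3, 1} : Finset (Fin 5)); decide)
  · exact adj_lh (l := cro 1 ⟨0, hD⟩) (i := 3) (by change (3 : Fin 5) ∈ ({3, 1} : Finset (Fin 5)); decide)
  · exact adj_hl (l := tri 1) (i := 3) (by change (3 : Fin 5) ∈ ({3, 4} : Finset (Fin 5)); decide)
  · exact adj_lh (l := tri 1) (i := 4) (by change (4 : Fin 5) ∈ ({3, 4} : Finset (Fin 5)); decide)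
  · exact adj_hl (l := tri 2) (i := 4) (by change (4 : Fin 5) ∈ ({4, 2} : Finset (Fin 5)); decide)
  · exact adj_lh (l := tri 2) (i := 2) (by change (2 : Fin 5) ∈ ({4, 2} : Finset (Fin 5)); decide)
  · exact adj_hl (l := cro 0 ⟨0, hD⟩) (i := 2) (by change (2 : Fin 5) ∈ ({2, 0} : Finset (Fin 5)); decide)
  · exact adj_lh (l := cro 0 ⟨0, hD⟩) (i := 0) (by change (0 : Fin 5) ∈ ({2, 0} : Finset (Fin 5)); decide)

def cc (t : ℕ) : Fin 10 := Fin.ofNat 10 t

lemma cc_succ (t : ℕ) : cc (t + 1) = cc t + 1 := by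
  ext
  simp [cc, Fin.val_add]

lemma cc_val (i : Fin 10) : cc i.val = i := by
  ext
  simp [cc]

lemma cc_zero {t : ℕ} (h : cc t = 0) : t % 10 = 0 := by
  simpa [cc] using congrArg Fin.val h

lemma chain (hD : 0 < D) (v : Vx D) (m : Fin 10) (T : ℕ)
    (h : ∀ t : ℕ, 1 ≤ t → t ≤ T → zf D hD (m + cc t) ≠ v) :
    ∀ t : ℕ, (h1 : 1 ≤ t) → (h2 : t ≤ T) →
      ((Gr D).induce {v}ᶜ).Reachable ⟨zf D hD (m + cc 1), h 1 le_rfl (h1.trans h2)⟩
        ⟨zf D hD (m + cc t), h t h1 h2⟩ := by
  intro t
  induction t with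
  | zero => intro h1; omega
  | succ t ih =>
    intro h1 h2
    rcases Nat.eq_zero_or_pos t with rfl | ht
    · exact SimpleGraph.Reachable.refl _
    · refine (ih ht (by omega)).trans (SimpleGraph.Adj.reachable ?_)
      change (Gr D).Adj _ _
      have := zf_adj hD (m + cc t)
      rw [add_assoc, ← cc_succ] at this
      exact this

lemma biconn_aux (hD : 0 < D) (v : Vx D) : ((Gr D).induce {v}ᶜ).Connected := by
  -- a base point on the cycle
  have hbase : ∃ b : ({v}ᶜ : Set (Vx D)), ∀ i : Fin 10, (hi : zf D hD i ≠ v) →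
      ((Gr D).induce {v}ᶜ).Reachable b ⟨zf D hD i, hi⟩ := by
    by_cases hv : ∃ m, zf D hD m = v
    · obtain ⟨m, rfl⟩ := hv
      have hne : ∀ t : ℕ, 1 ≤ t → t ≤ 9 → zf D hD (m + cc t) ≠ zf D hD m := by
        intro t h1 h2 h
        have := zf_inj hD h
        have h3 : cc t = 0 := by simpa using this
        have h4 := cc_zero h3
        omega
      refine ⟨⟨zf D hD (m + cc 1), hne 1 le_rfl (by omega)⟩, fun i hi => ?_⟩
      have hi' : i ≠ m := fun h => hi (by rw [h])
      obtain ⟨t, ht1, ht2, rfl⟩ : ∃ t : ℕ, 1 ≤ t ∧ t ≤ 9 ∧ i = m + cc t := by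
        refine ⟨(i - m).val, ?_, by omega, ?_⟩
        · have : (i - m).val ≠ 0 := by
            intro h0
            have : i - m = 0 := Fin.ext h0
            exact hi' (sub_eq_zero.1 this)
          omega
        · rw [cc_val]
          exact (add_sub_cancel m i).symm
      exact chain hD _ m 9 hne t ht1 ht2
    · push Not at hv
      refine ⟨⟨zf D hD (9 + cc 1), hv _⟩, fun i hi => ?_⟩
      obtain ⟨t, ht1, ht2, rfl⟩ : ∃ t : ℕ, 1 ≤ t ∧ t ≤ 10 ∧ i = 9 + cc t := by
        revert i
        intro i hi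
        refine ⟨i.val + 1, by omega, by omega, ?_⟩
        clear hi
        revert i
        decide
      exact chain hD v 9 10 (fun t _ _ => hv _) t ht1 ht2
  obtain ⟨b, hb⟩ := hbase
  rw [SimpleGraph.connected_iff_exists_forall_reachable]
  refine ⟨b, ?_⟩
  have hhub : ∀ i : Fin 5, (hi : (.inl i : Vx D) ≠ v) →
      ((Gr D).induce {v}ᶜ).Reachable b ⟨.inl i, hi⟩ := by
    intro i hi
    fin_cases i
    · exact hb 0 hi
    · exact hb 2 hi
    · exact hb 8 hi
    · exact hb 4 hi
    · exact hb 6 hi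
  rintro ⟨u, hu⟩
  rcases u with i | l
  · exact hhub i hu
  · obtain ⟨i, hi, hiv⟩ : ∃ i, i ∈ E D l ∧ (.inl i : Vx D) ≠ v := by
      have h2 : 2 ≤ (E D l).card := by
        rcases l with l | l | l | ⟨a, j⟩
        · exact le_of_eq rfl
        · exact le_of_eq rfl
        · rw [E_tri]; clear hu; revert l; decide
        · rw [E_cro]; clear hu; revert a; decide
      obtain ⟨i, hi, j, hj, hij⟩ := one_lt_card.1 (by omega : 1 < (E D l).card)
      by_cases hc : (.inl i : Vx D) = v
      · refine ⟨j, hj, fun h => hij ?_⟩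
        rw [← h] at hc
        exact Sum.inl.inj hc
      · exact ⟨i, hi, hc⟩
    exact (hhub i hiv).trans (SimpleGraph.Adj.reachable (adj_hl hi))

lemma biconn (hD : 0 < D) : Biconnected (Gr D) := by
  refine ⟨by rw [card_Vx]; omega, ?_, biconn_aux hD⟩
  haveI : Nonempty (Vx D) := ⟨.inl 0⟩
  refine SimpleGraph.Connected.mk ?_
  intro u w
  obtain ⟨v, hv⟩ : ∃ v : Vx D, v ∉ ({u, w} : Finset (Vx D)) := by
    by_contra hcon
    push Not at hcon
    have h1 : (univ : Finset (Vx D)) ⊆ {u, w} := fun v _ => hcon v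
    have h2 := card_le_card h1
    have h3 : ({u, w} : Finset (Vx D)).card ≤ 2 := card_le_two
    rw [card_univ, card_Vx] at h2
    omega
  simp only [mem_insert, mem_singleton, not_or] at hv
  have h := (biconn_aux hD v).preconnected ⟨u, fun h => hv.1 h.symm⟩ ⟨w, fun h => hv.2 h.symm⟩
  exact h.map (SimpleGraph.Embedding.induce _).toHom

/-! ### The theorem -/

lemma inv (P Q : Finpartition (univ : Finset (Vx D))) (h : Joined (Gr D) (5 * (D + 1)) D P Q)
    (h0 : (.inr (tri 0) : Vx D) ∈ pt P 2) : (.inr (tri 0) : Vx D) ∈ pt Q 2 := by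
  induction h with
  | refl => exact h0
  | tail _ h2 ih =>
    obtain ⟨a1, a2⟩ := of_isBCP h2.1
    obtain ⟨b1, b2⟩ := of_isBCP h2.2.1
    exact typ_pres _ _ a1 a2 b1 b2 h2.2.2 ih

lemma tri_in (σ : Equiv.Perm (Fin 3)) (t : Fin 3) :
    (.inr (tri t) : Vx D) ∈ pt (part D σ) (![2, 3, 4] (σ t)) := by
  have h1 : fib (asg D σ) (.inl (![2, 3, 4] (σ t))) ∈ (part D σ).parts :=
    mem_image_of_mem _ (mem_univ _)
  rw [← eq_pt (part D σ) h1 (mem_fib.2 rfl)]
  exact mem_fib.2 rfl

/-- **Theorem.** For every constant `c` there are a biconnected graph `G`, a divisor `k` of the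
number `n` of its vertices and a slack `s` with `s ≥ n / k` and `s ≥ c (n / k)` such that two
connected `k`-partitions of `G` which are balanced with slack `s` are not joined by recombination
moves. -/
theorem result (c : ℝ) :
    ∃ (V : Type) (_ : Fintype V) (_ : DecidableEq V) (G : SimpleGraph V) (k : ℕ) (s : ℝ),
      Biconnected G ∧ 0 < k ∧ k ∣ Fintype.card V ∧ (Fintype.card V : ℝ) / k ≤ s ∧
      c * ((Fintype.card V : ℝ) / k) ≤ s ∧
      ∃ P Q : Finpartition (univ : Finset V),
        IsBCP G k s P ∧ IsBCP G k s Q ∧ ¬ Joined G k s P Q := by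
  obtain ⟨D, hD⟩ := exists_nat_ge (max 2 (c * 2))
  have hD2 : (2 : ℝ) ≤ D := (le_max_left _ _).trans hD
  have hD2' : 2 ≤ D := by exact_mod_cast hD2
  have hDc : c * 2 ≤ D := (le_max_right _ _).trans hD
  refine ⟨Vx D, inferInstance, inferInstance, Gr D, 5 * (D + 1), D, biconn (by omega), by omega,
    ⟨2, by rw [card_Vx]; ring⟩, by rw [ratio]; exact hD2, by rw [ratio]; exact hDc,
    part D 1, part D (finRotate 3), ?_, ?_, ?_⟩
  · refine part_isBCP (by omega) 1 ?_
    intro t; rw [E_tri]; revert t; decide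
  · refine part_isBCP (by omega) _ ?_
    intro t; rw [E_tri]; revert t; decide
  · intro hJ
    have hQ : IsBCP (Gr D) (5 * (D + 1)) D (part D (finRotate 3)) := by
      refine part_isBCP (by omega) _ ?_
      intro t; rw [E_tri]; revert t; decide
    obtain ⟨b1, b2⟩ := of_isBCP hQ
    have h1 : (.inr (tri 0) : Vx D) ∈ pt (part D 1) 2 := tri_in 1 0
    have h2 := inv _ _ hJ h1
    have h3 : (.inr (tri 0) : Vx D) ∈ pt (part D (finRotate 3)) 3 := tri_in (finRotate 3) 0
    exact absurd (pt_inj _ b1 b2 ((part D (finRotate 3)).eq_of_mem_parts (pt_mem _ 2) (pt_mem _ 3)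
      h2 h3)) (by decide)

end Pool.Agent.Results.MP_c7e24e_co.NoMultipleOfAverage
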